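import Pool.Agent.W722.PO.Stm
import Pool.Agent.W722.PO.Stm2
import Pool.Agent.W722.PO.PAR
import Pool.Agent.W722.PO.FLOW
import Pool.Agent.W722.PO.CHN
import Pool.Agent.W722.PO.S1
import Pool.Agent.W722.PO.S2
import Pool.Agent.W722.PO.BASE
import Pool.Agent.W722.PO.MEAS
import Pool.Agent.W722.PO.VS
import Pool.Agent.W722.PO.CONV
import Pool.Agent.W722.PO.GE
import Pool.Agent.W722.PO.PAIR
import Pool.Agent.W722.PO.PAIRS
import Pool.Agent.W722.PO.DEGR
import Pool.Agent.W722.PO.ABS2
import Pool.Agent.W722.PO.CNTA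
import Pool.Agent.W722.PO.CNTC
import Pool.Agent.W722.PO.PHASE2
import Pool.Agent.W722.PO.ALL2
import Pool.Agent.W722.PO.SCAL
import Pool.Agent.W722.PO.MAIN2

set_option autoImplicit false

namespace Pool.Agent.Results.MP_6b7c5d_co.Asymptotic

open Pool.Agent.W722.PO

/-- Every graph `G` on `n` vertices, `n < 2^m`, has a path odd-cover with at most `n/2 + 11 m^2` paths. -/
theorem result :
    ∀ (n m : ℕ) (G : SimpleGraph (Fin n)), n < 2 ^ m →
      ∃ (k : ℕ) (u v : Fin k → Fin n)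
        (P : ∀ i : Fin k, (⊤ : SimpleGraph (Fin n)).Walk (u i) (v i)),
        k ≤ n / 2 + 11 * m ^ 2 ∧
        (∀ i : Fin k, (P i).IsPath) ∧
        ∀ a b : Fin n, a ≠ b →
          (G.Adj a b ↔
            Odd ((Finset.univ.filter (fun i : Fin k => s(a, b) ∈ (P i).edges)).card)) := by
  have chn : CHN := CHN_holds FLOW_holds
  have lov : LOV := LOV_holds (S1_holds PAR_holds chn) (S2_holds PAR_holds chn) BASE_holds
    MEAS1_holds MEAS2_holds
  have scal : SCAL := SCAL_holds (ALL2_holds (PHASE2_holds ABS2_holds CNTA_holds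
    (CNTC_holds DEGR_holds)))
  exact FINAL2_holds (MAIN2_holds lov VS_holds (PAIRS_holds PAIR_holds) scal) CONV_holds GE_holds

end Pool.Agent.Results.MP_6b7c5d_co.Asymptotic
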